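import Pool.Agent.Helper78.LK.Goals
import Pool.Agent.Helper50.KP.STR

/-!
# Project LK, packet INVR: chains of moves preserve runs
-/

set_option autoImplicit false

namespace Pool.Agent.Helper15.LK

open Pool.Agent.Helper50.KP Pool.Agent.Helper78.LK

theorem und_app (U V : DW) : und (U ++ V) = und U ++ und V := List.map_append

/-- In a valid word the middle part is valid. -/
theorem mid_valid {U L V : DW} {m : ℕ} (h : (str (und (U ++ L ++ V)) 0).isSome)
    (hU : str (und U) 0 = some m) : (str (und L) m).isSome := by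
  rw [und_app, und_app, gSTR.1, gSTR.1, hU] at h
  cases hL : str (und L) m with
  | none => simp [hL] at h
  | some b => rfl

theorem step_run (hAPP : APP) (hIPL : IPL) (hIRD : IRD) (D : Dat) (T : Finset ℕ) (W W' : DW)
    (q : ℤ) (hg : ∀ l, D.g l l = 0) (hT : ∀ x ∈ T, D.fr x = true) (hs : DStep T W W')
    (hr : Run D W [] [] q) : Run D W' [] [] q := by
  obtain ⟨v1, v2, U, V, L, R, hLR, rfl, rfl⟩ := hs
  rw [hAPP.1] at hr
  obtain ⟨M', q12, q3, h12, h3, rfl⟩ := hr
  rw [hAPP.1] at h12
  obtain ⟨M, q1, q2, h1, h2, rfl⟩ := h12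
  have hU : str (und U) 0 = some M.length := hAPP.2 D U [] M q1 h1
  have sL := mid_valid v1 hU
  have sR := mid_valid v2 hU
  have key : Run D R M M' q2 := by
    rcases hLR with h | h | ⟨h | h, hx⟩
    · exact (hIPL D L R M M' q2 h sL sR).1 h2
    · exact (hIPL D R L M M' q2 h sR sL).2 h2
    · exact (hIRD D L R M M' q2 hg h (fun e he h' => hT _ (hx e he h')) sL sR).1 h2
    · refine (hIRD D R L M M' q2 hg h (fun e he h' => hT _ (hx e ?_ h')) sR sL).2 h2
      rw [List.mem_append] at he ⊢
      exact he.symm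
  rw [hAPP.1]
  refine ⟨M', q1 + q2, q3, ?_, h3, rfl⟩
  rw [hAPP.1]
  exact ⟨M, q1, q2, h1, key, rfl⟩

theorem gINVR (hAPP : APP) (hIPL : IPL) (hIRD : IRD) : INVR := by
  intro D T W W' q hg hT hc
  induction hc with
  | refl => exact id
  | tail _ hs ih => exact fun h => step_run hAPP hIPL hIRD D T _ _ q hg hT hs (ih h)

end Pool.Agent.Helper15.LK
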